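import Pool.Agent.Lib.MP_edb5be_nt.ND.Iface2

/-!
Project ND, module BINLOC: local lower bound for the binomial weights.
-/

set_option autoImplicit false

namespace Pool.Agent.Lib.MP_edb5be_nt.ND.H97

open Finset Pool.Agent.Lib.MP_0a5adf_nt.TP

theorem central_sq (m : ℕ) (hm : 1 ≤ m) : 16 ^ m ≤ 4 * m * Nat.centralBinom m ^ 2 := by
  induction m, hm using Nat.le_induction with
  | base => decide
  | succ m hm ih =>
    have h := Nat.succ_mul_centralBinom_succ m
    have key : (m + 1) * 16 ^ (m + 1) ≤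
        (m + 1) * (4 * (m + 1) * Nat.centralBinom (m + 1) ^ 2) := by
      calc (m + 1) * 16 ^ (m + 1) = 16 * (m + 1) * 16 ^ m := by ring
        _ ≤ 16 * (m + 1) * (4 * m * Nat.centralBinom m ^ 2) := Nat.mul_le_mul_left _ ih
        _ ≤ 16 * (2 * m + 1) ^ 2 * Nat.centralBinom m ^ 2 := by nlinarith [sq_nonneg (Nat.centralBinom m)]
        _ = 4 * (2 * (2 * m + 1) * Nat.centralBinom m) ^ 2 := by ring
        _ = 4 * ((m + 1) * Nat.centralBinom (m + 1)) ^ 2 := by rw [h]
        _ = (m + 1) * (4 * (m + 1) * Nat.centralBinom (m + 1) ^ 2) := by ring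
    exact Nat.le_of_mul_le_mul_left key (Nat.succ_pos m)

theorem central_real (m : ℕ) (hm : 1 ≤ m) :
    1 / (2 * √(m : ℝ)) ≤ (Nat.centralBinom m : ℝ) / 4 ^ m := by
  have h := central_sq m hm
  have hR : (16 : ℝ) ^ m ≤ 4 * m * (Nat.centralBinom m : ℝ) ^ 2 := by exact_mod_cast h
  have hm0 : (0 : ℝ) < m := by exact_mod_cast hm
  have hs : 0 < √(m : ℝ) := Real.sqrt_pos.mpr hm0
  rw [div_le_div_iff₀ (by positivity) (by positivity), one_mul]
  have h16 : (16 : ℝ) ^ m = (4 ^ m) ^ 2 := by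
    rw [← pow_mul, mul_comm, pow_mul]
    norm_num
  refine le_of_sq_le_sq ?_ (by positivity)
  rw [← h16]
  refine hR.trans (le_of_eq ?_)
  have : √(m : ℝ) ^ 2 = m := Real.sq_sqrt hm0.le
  rw [mul_pow, mul_pow, this]
  ring

/-- the central weight is at least `1 / (2 √n)` -/
theorem bw_half (n : ℕ) (hn : 1 ≤ n) : 1 / (2 * √(n : ℝ)) ≤ bw n (n / 2) := by
  have hn0 : (0 : ℝ) < n := by exact_mod_cast hn
  rcases Nat.even_or_odd' n with ⟨m, rfl | rfl⟩
  · have hm : 1 ≤ m := by omega
    have hm0 : (0 : ℝ) < m := by exact_mod_cast hm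
    have h1 : bw (2 * m) (2 * m / 2) = (Nat.centralBinom m : ℝ) / 4 ^ m := by
      rw [bw, Nat.mul_div_cancel_left m two_pos, ← Nat.centralBinom_eq_two_mul_choose, pow_mul]
      norm_num
    rw [h1]
    refine le_trans ?_ (central_real m hm)
    refine one_div_le_one_div_of_le (by positivity) ?_
    have : √(m : ℝ) ≤ √((2 * m : ℕ) : ℝ) := Real.sqrt_le_sqrt (by push_cast; linarith)
    linarith
  · have h1 : bw (2 * m + 1) ((2 * m + 1) / 2) = (Nat.centralBinom (m + 1) : ℝ) / 4 ^ (m + 1) := by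
      have e1 : (2 * m + 1) / 2 = m := by omega
      have e2 : Nat.centralBinom (m + 1) = 2 * (2 * m + 1).choose m := by
        rw [Nat.centralBinom_eq_two_mul_choose, show 2 * (m + 1) = (2 * m + 1) + 1 by ring,
          Nat.choose_succ_succ]
        have e3 : (2 * m + 1).choose (m + 1) = (2 * m + 1).choose m := by
          refine Nat.choose_symm_of_eq_add (by ring)
        rw [e3]
        ring
      rw [bw, e1, e2]
      have e4 : (4 : ℝ) ^ (m + 1) = 2 * 2 ^ (2 * m + 1) := by
        rw [show (4 : ℝ) = 2 ^ 2 by norm_num, ← pow_mul, ← pow_succ']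
        congr 1
      rw [e4]
      push_cast
      rw [mul_div_mul_left _ _ two_ne_zero]
    rw [h1]
    refine le_trans ?_ (central_real (m + 1) (by omega))
    refine one_div_le_one_div_of_le (by positivity) ?_
    have : √((m + 1 : ℕ) : ℝ) ≤ √((2 * m + 1 : ℕ) : ℝ) :=
      Real.sqrt_le_sqrt (by push_cast; linarith [(Nat.cast_nonneg m : (0 : ℝ) ≤ m)])
    linarith

theorem one_sub_ge (x : ℝ) (h0 : 0 ≤ x) (h1 : x ≤ 1 / 2) : Real.exp (-(2 * x)) ≤ 1 - x := by
  have h2 : 1 + 2 * x ≤ Real.exp (2 * x) := by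
    have := Real.add_one_le_exp (2 * x)
    linarith
  rw [Real.exp_neg]
  have h3 : (Real.exp (2 * x))⁻¹ ≤ (1 + 2 * x)⁻¹ := inv_anti₀ (by linarith) h2
  refine h3.trans ?_
  rw [inv_le_iff_one_le_mul₀ (by linarith)]
  nlinarith

/-- ratio of neighbours -/
theorem bw_succ (n v : ℕ) (hv : v + 1 ≤ n) :
    bw n (v + 1) = bw n v * ((n - v : ℝ) / (v + 1)) := by
  have h := Nat.choose_succ_right_eq n v
  have hR : (n.choose (v + 1) : ℝ) * (v + 1) = n.choose v * (n - v) := by
    have : ((n.choose (v + 1) * (v + 1) : ℕ) : ℝ) = ((n.choose v * (n - v) : ℕ) : ℝ) := by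
      exact_mod_cast h
    rw [Nat.cast_mul, Nat.cast_mul, Nat.cast_sub (by omega)] at this
    push_cast at this
    exact this
  have hv0 : (v : ℝ) + 1 ≠ 0 := by positivity
  rw [bw, bw]
  field_simp
  linarith

theorem bw_up (n : ℕ) (hn : 144 ≤ n) (j : ℕ) (hj : n / 2 + j ≤ n)
    (h : 2 * ((n / 2 + j : ℕ) : ℝ) - n ≤ 3 * √n) :
    bw n (n / 2) * Real.exp (-(12 / √n * j)) ≤ bw n (n / 2 + j) := by
  have hn0 : (0 : ℝ) < n := by exact_mod_cast (by omega : 0 < n)
  have hs : 0 < √(n : ℝ) := Real.sqrt_pos.mpr hn0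
  have hs12 : 12 ≤ √(n : ℝ) := by
    rw [show (12 : ℝ) = √144 by rw [show (144 : ℝ) = 12 ^ 2 by norm_num]; exact (Real.sqrt_sq (by norm_num)).symm]
    exact Real.sqrt_le_sqrt (by exact_mod_cast hn)
  have hss : √(n : ℝ) * √n = n := Real.mul_self_sqrt hn0.le
  induction j with
  | zero => simp
  | succ j ih =>
    have hj' : n / 2 + j ≤ n := by omega
    have h' : 2 * ((n / 2 + j : ℕ) : ℝ) - n ≤ 3 * √n := by
      push_cast at h ⊢
      linarith
    have ih' := ih hj' h'
    have hb0 : 0 ≤ bw n (n / 2 + j) := by unfold bw; positivity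
    rw [show n / 2 + (j + 1) = (n / 2 + j) + 1 by ring, bw_succ n (n / 2 + j) (by omega)]
    set i := n / 2 + j with hi
    have hi2 : (n : ℝ) / 2 ≤ i + 1 := by
      have : n ≤ 2 * (i + 1) := by omega
      have : (n : ℝ) ≤ 2 * (i + 1) := by exact_mod_cast this
      linarith
    have hr : 1 - 6 / √n ≤ (n - i : ℝ) / (i + 1) := by
      rw [le_div_iff₀ (by positivity)]
      have h3 : 2 * ((i : ℝ) + 1) - n ≤ 3 * √n := by
        rw [show n / 2 + (j + 1) = i + 1 by omega] at h
        push_cast at h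
        exact h
      have h4 : (6 / √(n : ℝ)) * (n / 2) = 3 * √n := by
        rw [div_mul_eq_mul_div, div_eq_iff hs.ne']
        linarith
      have h5 : (6 / √(n : ℝ)) * (n / 2) ≤ 6 / √n * (i + 1) :=
        mul_le_mul_of_nonneg_left hi2 (by positivity)
      nlinarith
    have he : Real.exp (-(12 / √n)) ≤ 1 - 6 / √(n : ℝ) := by
      have := one_sub_ge (6 / √(n : ℝ)) (by positivity)
        (by rw [div_le_iff₀ hs]; linarith)
      rwa [show 2 * (6 / √(n : ℝ)) = 12 / √n by ring] at this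
    have hexp : Real.exp (-(12 / √(n : ℝ) * ((j + 1 : ℕ) : ℝ))) =
        Real.exp (-(12 / √(n : ℝ) * j)) * Real.exp (-(12 / √n)) := by
      rw [← Real.exp_add]
      congr 1
      push_cast
      ring
    rw [hexp, ← mul_assoc]
    exact mul_le_mul ih' (he.trans hr) (Real.exp_pos _).le hb0

theorem bw_symm (n v : ℕ) (hv : v ≤ n) : bw n (n - v) = bw n v := by
  rw [bw, bw, Nat.choose_symm hv]

/-- module BINLOC -/
theorem binloc : BinLocStatement := by
  refine ⟨min (Real.exp (-24) / 2) (1 / 2 ^ 144), by positivity, fun n v hn hv h => ?_⟩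
  have hn0 : (0 : ℝ) < n := by exact_mod_cast hn
  have hs : 0 < √(n : ℝ) := Real.sqrt_pos.mpr hn0
  have hs1 : 1 ≤ √(n : ℝ) := by
    rw [show (1 : ℝ) = √1 by rw [Real.sqrt_one]]
    exact Real.sqrt_le_sqrt (by exact_mod_cast hn)
  rcases lt_or_ge n 144 with hlt | hge
  · have h1 : (1 : ℝ) ≤ n.choose v := by exact_mod_cast Nat.choose_pos hv
    have h2 : (1 : ℝ) / 2 ^ 144 ≤ bw n v := by
      rw [bw]
      refine div_le_div₀ (by positivity) h1 (by positivity) ?_
      exact pow_le_pow_right₀ (by norm_num) hlt.le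
    refine le_trans ?_ h2
    rw [div_le_iff₀ hs]
    refine (min_le_right _ _).trans ?_
    have : (0 : ℝ) < 1 / 2 ^ 144 := by positivity
    nlinarith
  · have main : ∀ u : ℕ, n / 2 ≤ u → u ≤ n → |2 * (u : ℝ) - n| ≤ 3 * √n →
        min (Real.exp (-24) / 2) (1 / 2 ^ 144) / √n ≤ bw n u := by
      intro u hu hun habs
      obtain ⟨j, rfl⟩ := Nat.exists_eq_add_of_le hu
      have h3 := bw_up n hge j hun ((le_abs_self _).trans habs)
      have h4 := bw_half n hn
      refine le_trans ?_ h3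
      have hj : (j : ℝ) ≤ 2 * √n := by
        have h5 := (le_abs_self _).trans habs
        have h6 : (n : ℝ) ≤ 2 * ((n / 2 : ℕ) : ℝ) + 1 := by
          have : n ≤ 2 * (n / 2) + 1 := by omega
          exact_mod_cast this
        push_cast at h5 h6
        linarith
      have h7 : Real.exp (-24) ≤ Real.exp (-(12 / √n * j)) := by
        refine Real.exp_le_exp.mpr ?_
        have : 12 / √(n : ℝ) * j ≤ 12 / √n * (2 * √n) :=
          mul_le_mul_of_nonneg_left hj (by positivity)
        have h8 : 12 / √(n : ℝ) * (2 * √n) = 24 := by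
          field_simp
          norm_num
        linarith
      calc min (Real.exp (-24) / 2) (1 / 2 ^ 144) / √n ≤ (Real.exp (-24) / 2) / √n :=
            div_le_div_of_nonneg_right (min_le_left _ _) hs.le
        _ = 1 / (2 * √(n : ℝ)) * Real.exp (-24) := by
            field_simp
        _ ≤ bw n (n / 2) * Real.exp (-(12 / √n * j)) :=
            mul_le_mul h4 h7 (Real.exp_pos _).le (le_trans (by positivity) h4)
    rcases le_total (n / 2) v with hc | hc
    · exact main v hc hv h
    · rw [← bw_symm n v hv]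
      refine main (n - v) (by omega) (by omega) ?_
      rw [Nat.cast_sub hv]
      rw [show 2 * ((n : ℝ) - v) - n = -(2 * (v : ℝ) - n) by ring, abs_neg]
      exact h

end Pool.Agent.Lib.MP_edb5be_nt.ND.H97
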