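import Pool.Agent.Lib.MP_edb5be_nt.ND.Iface2

/-!
Project ND, module HIT: lower bound for the block density of the set of the numbers whose
trajectory meets `E`.
-/

set_option autoImplicit false

namespace Pool.Agent.Lib.MP_edb5be_nt.ND.H97

open Finset Pool.Agent.Lib.MP_0a5adf_nt.TP

/-- Cauchy-Schwarz: if `a ≤ ∑ V`, `0 ≤ a`, `∑ V² ≤ b` then `a² ≤ b #{V > 0}` -/
theorem second_moment {ι : Type} [DecidableEq ι] (s : Finset ι) (V : ι → ℕ) (a b : ℝ)
    (h0 : 0 ≤ a) (ha : a ≤ ∑ x ∈ s, (V x : ℝ)) (hb : ∑ x ∈ s, (V x : ℝ) ^ 2 ≤ b) :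
    a ^ 2 ≤ b * ((s.filter fun x => V x ≠ 0).card : ℝ) := by
  have h1 : ∑ x ∈ s, (V x : ℝ) = ∑ x ∈ s.filter (fun x => V x ≠ 0), (V x : ℝ) := by
    rw [sum_filter]
    refine sum_congr rfl fun x _ => ?_
    by_cases h : V x = 0
    · simp [h]
    · rw [if_pos h]
  have h2 : (∑ x ∈ s.filter (fun x => V x ≠ 0), (V x : ℝ)) ^ 2 ≤
      ((s.filter fun x => V x ≠ 0).card : ℝ) * ∑ x ∈ s.filter (fun x => V x ≠ 0), (V x : ℝ) ^ 2 :=
    sq_sum_le_card_mul_sum_sq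
  have h3 : ∑ x ∈ s.filter (fun x => V x ≠ 0), (V x : ℝ) ^ 2 ≤ ∑ x ∈ s, (V x : ℝ) ^ 2 :=
    sum_le_sum_of_subset_of_nonneg (filter_subset _ _) fun x _ _ => sq_nonneg _
  calc a ^ 2 ≤ (∑ x ∈ s, (V x : ℝ)) ^ 2 := pow_le_pow_left₀ h0 ha 2
    _ = (∑ x ∈ s.filter (fun x => V x ≠ 0), (V x : ℝ)) ^ 2 := by rw [h1]
    _ ≤ _ := h2
    _ ≤ ((s.filter fun x => V x ≠ 0).card : ℝ) * b :=
        mul_le_mul_of_nonneg_left (h3.trans hb) (Nat.cast_nonneg _)
    _ = _ := mul_comm _ _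

open Classical in
/-- module HIT -/
theorem hit (h1 : PV1Statement) (h2 : PV2Statement) : HitStatement := by
  obtain ⟨c1, C1, k1, hc1, hC1, H1⟩ := h1
  obtain ⟨C2, z2, hC2, H2⟩ := h2
  refine ⟨c1 ^ 2 / C2, C1 / c1, max k1 z2, by positivity, by positivity, ?_⟩
  intro d k z m E hk hE hz hm
  have hk1 : k1 ≤ k := (le_max_left _ _).trans hk
  have hz2 : z2 ≤ z := by
    have : z2 ≤ k := (le_max_right _ _).trans hk
    omega
  have P1 := H1 d k z m E hk1 hE hz hm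
  have P2 := H2 d k z hz2
  set φ : ℝ := (∑ M ∈ E, Phi m (sg d * M)) / 2 ^ k with hφ
  set s : Finset ℕ := Ico (2 ^ z) (2 ^ (z + 1)) with hs
  set V : ℕ → ℕ := fun N => ((range (19 * z / 20)).filter fun i => (T d)^[i] N ∈ E).card with hV
  have hVW : ∀ N, V N ≤ ((range (19 * z / 20)).filter fun i => (T d)^[i] N ∈ blk k 1).card := by
    intro N
    refine card_le_card fun i hi => ?_
    rw [mem_filter] at hi ⊢
    exact ⟨hi.1, hE hi.2⟩
  have hb : ∑ N ∈ s, (V N : ℝ) ^ 2 ≤ C2 * 2 ^ z := by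
    refine le_trans (sum_le_sum fun N _ => ?_) P2
    exact pow_le_pow_left₀ (Nat.cast_nonneg _) (by exact_mod_cast hVW N) 2
  have hpow : (0 : ℝ) < 2 ^ z := by positivity
  -- the set of the numbers with a visit is contained in the block of `Hit`
  have hsub : ((s.filter fun N => V N ≠ 0).card : ℝ) / 2 ^ z ≤ Gd (Hit d (E : Set ℕ)) z := by
    unfold Gd
    have e1 : (2 : ℝ) ^ ((z : ℕ) : ℝ) = 2 ^ z := Real.rpow_natCast 2 z
    have e2 : (2 : ℝ) ^ (((z : ℕ) : ℝ) + 1) = 2 ^ (z + 1) := by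
      rw [← Real.rpow_natCast 2 (z + 1)]
      push_cast
      rfl
    rw [e1, e2]
    refine div_le_div_of_nonneg_right ?_ hpow.le
    have hfin : {N : ℕ | N ∈ Hit d (E : Set ℕ) ∧ (2 : ℝ) ^ z ≤ N ∧ (N : ℝ) < 2 ^ (z + 1)}.Finite :=
      (Set.finite_Iio (2 ^ (z + 1))).subset fun N hN => by
        have : (N : ℝ) < ((2 ^ (z + 1) : ℕ) : ℝ) := by
          push_cast
          exact hN.2.2
        exact_mod_cast this
    have hle : (s.filter fun N => V N ≠ 0).card ≤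
        {N : ℕ | N ∈ Hit d (E : Set ℕ) ∧ (2 : ℝ) ^ z ≤ N ∧ (N : ℝ) < 2 ^ (z + 1)}.ncard := by
      rw [← Set.ncard_coe_finset]
      refine Set.ncard_le_ncard ?_ hfin
      intro N hN
      rw [mem_coe, mem_filter, hs, mem_Ico] at hN
      obtain ⟨⟨hN1, hN2⟩, hN3⟩ := hN
      refine ⟨?_, by exact_mod_cast hN1, by exact_mod_cast hN2⟩
      have h3 : ((range (19 * z / 20)).filter fun i => (T d)^[i] N ∈ E).Nonempty := by
        rw [← card_pos]
        exact Nat.pos_of_ne_zero hN3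
      obtain ⟨i, hi⟩ := h3
      rw [mem_filter] at hi
      exact ⟨i, by exact_mod_cast hi.2⟩
    exact_mod_cast hle
  refine le_trans ?_ hsub
  rcases le_or_gt (φ - C1 / c1 / k) 0 with hneg | hpos
  · rw [max_eq_left hneg]
    simp only [ne_eq, OfNat.ofNat_ne_zero, not_false_eq_true, zero_pow, mul_zero]
    positivity
  · rw [max_eq_right hpos.le]
    have ha : 2 ^ z * (c1 * (φ - C1 / c1 / k)) ≤ ∑ N ∈ s, (V N : ℝ) := by
      refine le_trans (le_of_eq ?_) P1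
      rw [hφ]
      field_simp
    have h0 : 0 ≤ 2 ^ z * (c1 * (φ - C1 / c1 / k)) := by positivity
    have key := second_moment s V _ _ h0 ha hb
    rw [le_div_iff₀ hpow]
    have h5 : C2 * 2 ^ z * (c1 ^ 2 / C2 * (φ - C1 / c1 / k) ^ 2 * 2 ^ z) ≤
        C2 * 2 ^ z * ((s.filter fun N => V N ≠ 0).card : ℝ) := by
      refine le_trans (le_of_eq ?_) key
      field_simp
    exact le_of_mul_le_mul_left h5 (by positivity)

end Pool.Agent.Lib.MP_edb5be_nt.ND.H97
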