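import Pool.Agent.Lib.MP_edb5be_nt.ND.Iface2

/-!
Project ND, module RENEW: the walk visits every interval of length `4 / 5` with positive
probability.
-/

set_option autoImplicit false

namespace Pool.Agent.Lib.MP_edb5be_nt.ND.H97

open Finset Pool.Agent.Lib.MP_0a5adf_nt.TP

theorem th_lt : th < 8 / 5 := by
  unfold th
  rw [Real.logb_lt_iff_lt_rpow (by norm_num) (by norm_num)]
  have h : ((2 : ℝ) ^ (8 / 5 : ℝ)) ^ (5 : ℕ) = 2 ^ (8 : ℕ) := by
    rw [← Real.rpow_natCast, ← Real.rpow_mul (by norm_num)]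
    norm_num
  by_contra hcon
  push Not at hcon
  have h1 : ((2 : ℝ) ^ (8 / 5 : ℝ)) ^ (5 : ℕ) ≤ 3 ^ (5 : ℕ) :=
    pow_le_pow_left₀ (by positivity) hcon 5
  rw [h] at h1
  norm_num at h1

theorem lt_th : 3 / 2 < th := by
  unfold th
  rw [Real.lt_logb_iff_rpow_lt (by norm_num) (by norm_num)]
  have h : ((2 : ℝ) ^ (3 / 2 : ℝ)) ^ (2 : ℕ) = 2 ^ (3 : ℕ) := by
    rw [← Real.rpow_natCast, ← Real.rpow_mul (by norm_num)]
    norm_num
  by_contra hcon
  push Not at hcon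
  have h1 : (3 : ℝ) ^ (2 : ℕ) ≤ ((2 : ℝ) ^ (3 / 2 : ℝ)) ^ (2 : ℕ) :=
    pow_le_pow_left₀ (by positivity) hcon 2
  rw [h] at h1
  norm_num at h1

/-- one of the two windows contains an integer -/
theorem window (a η : ℝ) (ha : 0 ≤ a) (hη : 0 ≤ η) (hη1 : η ≤ 1 / 10) :
    ∃ (e j : ℕ), e ≤ 1 ∧ a + th * e + η ≤ j ∧ (j : ℝ) ≤ a + th * e + 1 - η := by
  have h1 := Nat.le_ceil (a + η)
  have h2 := Nat.ceil_lt_add_one (show 0 ≤ a + η by linarith)
  rcases le_or_gt ((⌈a + η⌉₊ : ℝ)) (a + 1 - η) with h | h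
  · refine ⟨0, ⌈a + η⌉₊, by norm_num, ?_, ?_⟩
    · push_cast; linarith
    · push_cast; linarith
  · refine ⟨1, ⌈a + η⌉₊ + 1, le_rfl, ?_, ?_⟩
    · push_cast
      have := th_lt
      linarith
    · push_cast
      have := lt_th
      linarith

/-- the choice for `u` -/
theorem choice (τ η : ℝ) (hτ : 10 ^ 4 ≤ τ) (hη : 0 ≤ η) (hη1 : η ≤ 1 / 10) (u : ℕ)
    (hu1 : τ / mu / 2 ≤ 2 * u) (hu2 : 2 * (u : ℝ) ≤ τ / mu / 2 + √τ) :
    ∃ j v : ℕ, v / 2 = u ∧ v ≤ j ∧ |(j : ℝ) - τ / mu| ≤ τ / 50 ∧ j < 6 * ⌈τ⌉₊ ∧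
      τ + η ≤ j - th * v ∧ j - th * v ≤ τ + 1 - η ∧ |2 * (v : ℝ) - j| ≤ 3 * √j ∧
      (j : ℝ) ≤ 6 * τ ∧ 1 ≤ j := by
  have hth1 := th_lt
  have hth2 := lt_th
  have hmu : mu = 1 - th / 2 := rfl
  have hmu1 : 1 / 5 < mu := by rw [hmu]; linarith
  have hmu2 : mu < 1 / 4 := by rw [hmu]; linarith
  have hmu0 : 0 < mu := by linarith
  have hτ0 : 0 < τ := by linarith
  have hsq : √τ * √τ = τ := Real.mul_self_sqrt hτ0.le
  have hs100 : 100 ≤ √τ := by
    rw [show (100 : ℝ) = √(100 ^ 2) by rw [Real.sqrt_sq (by norm_num)]]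
    exact Real.sqrt_le_sqrt (by norm_num at hτ ⊢; linarith)
  obtain ⟨e, j, he, hj1, hj2⟩ := window (τ + th * (2 * u : ℕ)) η
    (by positivity) hη hη1
  have he' : (e : ℝ) ≤ 1 := by exact_mod_cast he
  have he0 : (0 : ℝ) ≤ e := Nat.cast_nonneg e
  set v := 2 * u + e with hv
  have hvR : (v : ℝ) = 2 * u + e := by rw [hv]; push_cast; ring
  -- position of `j`
  set r : ℝ := j - (τ + th * v) with hr
  have hjv : (j : ℝ) = τ + th * v + r := by rw [hr]; ring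
  have hr1 : η ≤ r := by
    rw [hr, hvR]
    push_cast at hj1
    linarith
  have hr2 : r ≤ 1 - η := by
    rw [hr, hvR]
    push_cast at hj2
    linarith
  -- the deviation of `v`
  set w : ℝ := v - τ / mu / 2 with hw
  have hw0 : 0 ≤ w := by rw [hw, hvR]; linarith
  have hw1 : w ≤ √τ + 1 := by rw [hw, hvR]; linarith
  have hmm : mu * (τ / mu) = τ := by field_simp
  have hj3 : (j : ℝ) - τ / mu = th * w + r := by
    rw [hjv, hw]
    have : th = 2 * (1 - mu) := by rw [hmu]; ring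
    rw [this]
    linear_combination (-1 : ℝ) * hmm
  have h2v : 2 * (v : ℝ) - j = 2 * mu * w - r := by
    have e1 : (v : ℝ) = w + τ / mu / 2 := by rw [hw]; ring
    have e2 : (j : ℝ) = τ / mu + th * w + r := by linarith
    rw [e1, e2]
    have : th = 2 * (1 - mu) := by rw [hmu]; ring
    rw [this]
    ring
  have hthw : th * w ≤ 8 / 5 * (√τ + 1) := mul_le_mul hth1.le hw1 hw0 (by norm_num)
  have hthw0 : 0 ≤ th * w := mul_nonneg (by linarith) hw0
  have hdev : (j : ℝ) - τ / mu ≤ τ / 50 := by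
    rw [hj3]
    nlinarith
  have hτmu : τ / mu ≤ 5 * τ := by
    rw [div_le_iff₀ hmu0]
    nlinarith
  have hj6 : (j : ℝ) ≤ 6 * τ := by linarith
  have hjτ : τ ≤ j := by
    rw [hjv]
    have : 0 ≤ th * (v : ℝ) := by
      have : (0 : ℝ) ≤ v := Nat.cast_nonneg v
      have h3 : 0 ≤ th := by linarith
      positivity
    linarith
  refine ⟨j, v, by omega, ?_, ?_, ?_, ?_, ?_, ?_, hj6, ?_⟩
  · have : (v : ℝ) ≤ j := by
      rw [hjv]
      have hv0 : (0 : ℝ) ≤ v := Nat.cast_nonneg v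
      have h3 : 0 ≤ (th - 1) * (v : ℝ) := mul_nonneg (by linarith only [hth2]) hv0
      linarith only [h3, hr1, hη, hτ0]
    exact_mod_cast this
  · rw [abs_of_nonneg (by rw [hj3]; linarith)]
    exact hdev
  · have h3 : (j : ℝ) < 6 * (⌈τ⌉₊ : ℝ) := by
      have h4 := Nat.le_ceil τ
      linarith
    exact_mod_cast h3
  · linarith only [hr, hr1]
  · linarith only [hr, hr2]
  · rw [h2v]
    have hsj : √τ ≤ √(j : ℝ) := Real.sqrt_le_sqrt hjτ
    have h5 : 2 * mu * w ≤ 1 / 2 * (√τ + 1) :=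
      mul_le_mul (by linarith) hw1 hw0 (by norm_num)
    have h6 : 0 ≤ 2 * mu * w := by positivity
    rw [abs_le]
    constructor
    · linarith only [hsj, h6, hr2, hη, hs100]
    · linarith only [hsj, h5, hr1, hη, hs100]
  · have : (1 : ℝ) ≤ j := by linarith only [hjτ, hτ]
    exact_mod_cast this

open Classical in
/-- module RENEW -/
theorem renew (hB : BinLocStatement) : RenewStatement := by
  obtain ⟨c, hc, HB⟩ := hB
  refine ⟨c / 12, 10 ^ 4, by positivity, ?_⟩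
  intro τ η hτ hη hη1
  have hth1 := th_lt
  have hth2 := lt_th
  have hmu : mu = 1 - th / 2 := rfl
  have hmu0 : 0 < mu := by rw [hmu]; linarith
  have hτ0 : 0 < τ := by linarith
  have hsq : √τ * √τ = τ := Real.mul_self_sqrt hτ0.le
  have hs100 : 100 ≤ √τ := by
    rw [show (100 : ℝ) = √(100 ^ 2) by rw [Real.sqrt_sq (by norm_num)]]
    exact Real.sqrt_le_sqrt (by norm_num at hτ ⊢; linarith)
  have hst0 : 0 < √τ := by linarith
  -- the values of `u`
  set u0 : ℕ := ⌈τ / mu / 4⌉₊ with hu0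
  set K : ℕ := ⌊√τ / 2⌋₊ with hK
  have hu01 := Nat.le_ceil (τ / mu / 4)
  have hu02 := Nat.ceil_lt_add_one (show 0 ≤ τ / mu / 4 by positivity)
  have hK1 := Nat.floor_le (show 0 ≤ √τ / 2 by positivity)
  have hK2 := Nat.lt_floor_add_one (√τ / 2)
  have hch : ∀ i : ℕ, i ∈ range K → ∃ p : ℕ × ℕ, p.2 / 2 = u0 + i ∧ p.2 ≤ p.1 ∧
      |(p.1 : ℝ) - τ / mu| ≤ τ / 50 ∧ p.1 < 6 * ⌈τ⌉₊ ∧
      τ + η ≤ p.1 - th * p.2 ∧ p.1 - th * p.2 ≤ τ + 1 - η ∧ |2 * (p.2 : ℝ) - p.1| ≤ 3 * √p.1 ∧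
      (p.1 : ℝ) ≤ 6 * τ ∧ 1 ≤ p.1 := by
    intro i hi
    rw [mem_range] at hi
    have hi' : (i : ℝ) + 1 ≤ K := by exact_mod_cast hi
    obtain ⟨j, v, h⟩ := choice τ η hτ hη hη1 (u0 + i)
      (by push_cast; linarith [(Nat.cast_nonneg i : (0 : ℝ) ≤ i)])
      (by push_cast; linarith)
    exact ⟨(j, v), h⟩
  choose! p hp using hch
  have hinj : Set.InjOn p (range K : Finset ℕ) := by
    intro i hi i' hi' heq
    have h1 := (hp i hi).1
    have h2 := (hp i' hi').1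
    rw [heq] at h1
    omega
  set J := (range (6 * ⌈τ⌉₊)).filter (fun j : ℕ => |(j : ℝ) - τ / mu| ≤ τ / 50) with hJ
  set t : ℕ × ℕ → ℝ := fun q =>
    if τ + η ≤ q.1 - th * q.2 ∧ q.1 - th * q.2 ≤ τ + 1 - η then bw q.1 q.2 else 0 with ht
  have ht0 : ∀ q, 0 ≤ t q := by
    intro q
    simp only [ht]
    split_ifs
    · unfold bw; positivity
    · exact le_rfl
  have hsum : ∑ i ∈ range K, t (p i) ≤ ∑ j ∈ J, ∑ v ∈ range (j + 1), t (j, v) := by
    rw [sum_sigma']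
    have e1 : ∑ x ∈ J.sigma (fun j => range (j + 1)), t (x.1, x.2) =
        ∑ q ∈ (J.sigma (fun j => range (j + 1))).image (fun x => (x.1, x.2)), t q := by
      rw [sum_image]
      rintro ⟨a, b⟩ _ ⟨a', b'⟩ _ h
      simp only [Prod.mk.injEq] at h
      obtain ⟨rfl, rfl⟩ := h
      rfl
    rw [e1, ← sum_image (s := range K) (g := p) (f := t) hinj]
    refine sum_le_sum_of_subset_of_nonneg ?_ fun q _ _ => ht0 q
    intro q hq
    rw [mem_image] at hq ⊢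
    obtain ⟨i, hi, rfl⟩ := hq
    obtain ⟨h1, h2, h3, h4, -⟩ := hp i hi
    refine ⟨⟨(p i).1, (p i).2⟩, ?_, rfl⟩
    rw [mem_sigma]
    refine ⟨?_, ?_⟩
    · simp only [hJ]
      rw [mem_filter, mem_range]
      exact ⟨h4, h3⟩
    · simp only
      rw [mem_range]
      omega
  refine le_trans ?_ hsum
  have hterm : ∀ i ∈ range K, c / (3 * √τ) ≤ t (p i) := by
    intro i hi
    obtain ⟨h1, h2, h3, h4, h5, h6, h7, h8, h9⟩ := hp i hi
    have e1 : t (p i) = bw (p i).1 (p i).2 := by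
      simp only [ht]
      rw [if_pos ⟨h5, h6⟩]
    rw [e1]
    refine le_trans ?_ (HB (p i).1 (p i).2 h9 h2 h7)
    have hj0 : (0 : ℝ) < (p i).1 := by exact_mod_cast h9
    have h10 : √((p i).1 : ℝ) ≤ 3 * √τ := by
      refine Real.sqrt_le_iff.mpr ⟨by positivity, ?_⟩
      have : (3 * √τ) ^ 2 = 9 * (√τ * √τ) := by ring
      rw [this, hsq]
      linarith
    exact div_le_div_of_nonneg_left hc.le (Real.sqrt_pos.mpr hj0) h10
  have hcount : (K : ℝ) * (c / (3 * √τ)) ≤ ∑ i ∈ range K, t (p i) := by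
    have := card_nsmul_le_sum (range K) (fun i => t (p i)) (c / (3 * √τ)) hterm
    rwa [card_range, nsmul_eq_mul] at this
  refine le_trans ?_ hcount
  have hK3 : √τ / 4 ≤ K := by linarith
  calc c / 12 = √τ / 4 * (c / (3 * √τ)) := by
        field_simp
        norm_num
    _ ≤ K * (c / (3 * √τ)) := mul_le_mul_of_nonneg_right hK3 (by positivity)

end Pool.Agent.Lib.MP_edb5be_nt.ND.H97
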